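import Mathlib

set_option autoImplicit false

namespace Pool.Agent.MP_32a90a_pr

open scoped Classical

/-- The set of values (1/n) x^T A x, with A the adjacency matrix of G and x a balanced sign
vector. -/
def vals {n : ℕ} (G : SimpleGraph (Fin n)) : Set ℝ :=
  {t | ∃ x : Fin n → ℝ, (∀ i, x i = 1 ∨ x i = -1) ∧ ∑ i, x i = 0 ∧
    t = (1 / (n : ℝ)) * dotProduct x ((G.adjMatrix ℝ).mulVec x)}

end Pool.Agent.MP_32a90a_pr
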